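import Pool.Agent.Helper36_XQ.Stmt5
import Pool.Agent.Helper36_XQ.Ldm4

/-!
Squad XQ (MP_5b0138_an), part E4, module LDV: Gaussian bound for the masses of virtual loops.
-/

set_option autoImplicit false

namespace Pool.Agent.XQ.K4.H9

open MeasureTheory Complex Filter Topology ProbabilityTheory Pool.Agent.H16Iso Pool.Agent.H62T
  Pool.Agent.H16F Pool.Agent.H38KL Pool.Agent.AEU
open scoped ENNReal NNReal

lemma norm_uc4 {u : Fin 4 → ℂ} (hu : ∀ s, ‖u s‖ = 1) (s : Fin 4) : ‖uc4 u s‖ = 1 := by
  unfold uc4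
  by_cases h3 : s = 3
  · subst h3
    simp [hu]
  · rw [Function.update_of_ne h3]
    by_cases h2 : s = 2
    · subst h2
      simp [hu]
    · rw [Function.update_of_ne h2]
      exact hu s

lemma measurable_inv4 {n : ℕ} [NeZero n] (u : Fin 4 → ℂ) (h : Fin 4 → ℝ) (j : Fin n) :
    Measurable (fun x : Fin n → ℂ => inv4 u h x j) := by
  unfold inv4
  by_cases hj : j = 1
  · simp only [hj, if_true]
    exact measurable_rf_comp u h 3 (measurable_pi_apply 1)
  · simp only [hj, if_false]
    exact measurable_pi_apply j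

lemma measurable_fnv4 {n : ℕ} [NeZero n] (u : Fin 4 → ℂ) (h : Fin 4 → ℝ) (j : Fin n) :
    Measurable (fun x : Fin n → ℂ => fnv4 u h x j) := by
  unfold fnv4
  by_cases hj : j + 1 = 0
  · simp only [hj, if_true]
    exact measurable_rf_comp u h 2 (measurable_pi_apply 0)
  · simp only [hj, if_false]
    exact measurable_pi_apply (j + 1)

lemma meas_Cnv {n : ℕ} [NeZero n] (u : Fin 4 → ℂ) (h : Fin 4 → ℝ) (A : Fin n → Finset (Fin 4)) :
    MeasurableSet {x : Fin n → ℂ | Cnv u h x A} := by
  have hm1 : ∀ (j : Fin n) (s : Fin 4),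
      MeasurableSet {x : Fin n → ℂ | ip (uc4 u s) (inv4 u h x j) < hc4 h s} := by
    intro j s
    have := (measurable_ip (uc4 u s)).comp (measurable_inv4 u h j)
    exact measurableSet_lt this measurable_const
  have hm2 : ∀ (j : Fin n) (s : Fin 4),
      MeasurableSet {x : Fin n → ℂ | ip (uc4 u s) (fnv4 u h x j) < hc4 h s} := by
    intro j s
    have := (measurable_ip (uc4 u s)).comp (measurable_fnv4 u h j)
    exact measurableSet_lt this measurable_const
  unfold Cnv
  rw [Set.ofPred_forall]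
  refine MeasurableSet.iInter fun j => ?_
  rw [Set.ofPred_forall]
  refine MeasurableSet.iInter fun s => ?_
  by_cases h0 : j ≠ 0
  · by_cases h' : s ∉ A j
    · simp only [h0, h', not_false_iff, true_imp_iff, ne_eq]
      exact (hm1 j s).inter (hm2 j s)
    · simp [h']
  · simp [h0]

theorem ldv : LdvStatement := by
  intro u h hu n _ hn S δ l R ε hS hδ hl hR hε hlen hloc
  classical
  have huc := norm_uc4 hu
  have hLDB := Pool.Agent.AEU.H7.ldb
  -- the isometries at the two ends of a block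
  set gi : Fin n → ℂ ≃ᵢ ℂ := fun j => if j = 1 then rfE u h 3 (hu 3) else IsometryEquiv.refl ℂ
    with hgi
  set gf : Fin n → ℂ ≃ᵢ ℂ := fun j => if j + 1 = 0 then rfE u h 2 (hu 2)
    else IsometryEquiv.refl ℂ with hgf
  set f : Fin n → ℂ ≃ᵢ ℂ := fun j => (gi j).trans (gf j).symm with hf
  obtain ⟨C, p, hC⟩ := hLDB n f δ l R ε hδ hl hR hε
  refine ⟨Fintype.card (Fin n → Finset (Fin 4)) * |C|, p, fun τ hτ hmesh => ?_⟩
  have ht : 0 < ∑ i, τ i := Finset.sum_pos (fun i _ => hτ i) ⟨0, Finset.mem_univ _⟩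
  have h01 : (0 : Fin n) ≠ 1 := by
    intro h
    have h2 := congrArg Fin.val h
    have h3 : ((1 : Fin n) : ℕ) = 1 % n := Fin.val_one' n
    rw [h3, Nat.mod_eq_of_lt (by omega)] at h2
    simp at h2
  have hgix : ∀ (x : Fin n → ℂ) (j : Fin n), gi j (x j) = inv4 u h x j := by
    intro x j
    simp only [hgi, inv4]
    split_ifs with hj
    · subst hj
      rfl
    · rfl
  have hgfx : ∀ (x : Fin n → ℂ) (j : Fin n), gf j (x (j + 1)) = fnv4 u h x j := by
    intro x j
    simp only [hgf, fnv4]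
    split_ifs with hj
    · rw [hj]
      rfl
    · rfl
  have hi0 : ∀ x : Fin n → ℂ, inv4 u h x 0 = x 0 := by
    intro x
    simp [inv4, h01]
  have hf0 : ∀ x : Fin n → ℂ, fnv4 u h x 0 = x 1 := by
    intro x
    simp [fnv4, h01.symm]
  unfold Mvr
  refine sum_le_card _ ht fun A => ?_
  by_cases hA : A 0 = ∅
  swap
  · simp [hA]
  have hb : ∀ (x : Fin n → ℂ) (j : Fin n),
      bl (uc4 u) (hc4 h) (A j) (gi j (x j)) (gf j (x (j + 1))) = blv4 u h x A j := by
    intro x j
    rw [hgix, hgfx]
    unfold blv4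
    split_ifs with hj
    · subst hj
      rw [hA, bl_empty, hi0, hf0]
    · rfl
  have hT : MeasurableSet {x : Fin n → ℂ | S x A ∧ Cnv u h x A} :=
    (hS A).inter (meas_Cnv u h A)
  have h1 := hC τ (fun j x y => bl (uc4 u) (hc4 h) (A j) (gi j x) (gf j y))
    {x : Fin n → ℂ | S x A ∧ Cnv u h x A} hτ hmesh hT
    (fun j => by
      have h2 : Measurable (fun p : ℂ × ℂ => gi j p.1) :=
        (gi j).continuous.measurable.comp measurable_fst
      have h3 : Measurable (fun p : ℂ × ℂ => gf j p.2) :=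
        (gf j).continuous.measurable.comp measurable_snd
      show Measurable (fun p : ℂ × ℂ => bl (uc4 u) (hc4 h) (A j) (gi j p.1) (gf j p.2))
      exact measurable_bl_comp _ _ _ h2 h3)
    (fun j x y => by
      have h2 : ‖f j x - y‖ = ‖gi j x - gf j y‖ := by
        have h3 := (gf j).dist_eq ((gf j).symm (gi j x)) y
        rw [dist_eq_norm, dist_eq_norm, IsometryEquiv.apply_symm_apply] at h3
        rw [h3]
        rfl
      rw [h2]
      exact le_bl huc (A j) _ _)
    (fun x hx hsh => by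
      simp only [hb] at hsh ⊢
      exact hlen x A hx.1 hA hx.2 hsh)
    (fun x hx => by
      refine (hloc x A hx.1).trans ?_
      have h2 : 0 ≤ ∑ j, bl (uc4 u) (hc4 h) (A j) (gi j (x j)) (gf j (x (j + 1))) :=
        Finset.sum_nonneg fun j _ => bl_nonneg _ _ _ _ _
      nlinarith)
  refine le_trans ?_ h1
  rw [← lintegral_indicator hT]
  refine lintegral_mono fun x => ?_
  by_cases hx : S x A
  · simp only [hx, hA, and_self, if_true]
    by_cases hc' : Cnv u h x A
    · rw [Set.indicator_of_mem (by exact ⟨hx, hc'⟩)]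
      refine ENNReal.ofReal_le_ofReal ?_
      rw [← Finset.mul_prod_erase Finset.univ _ (Finset.mem_univ (0 : Fin n))]
      unfold wtv
      refine mul_le_mul ?_ ?_ ?_ ?_
      · rw [hgix, hgfx, hi0, hf0, hA, bl_empty]
        unfold G
        exact le_rfl
      · refine Finset.prod_le_prod
          (fun j _ => ((lab (uc4 u) (hc4 h) huc).2 _ _ _ (hτ j)).1 (A j)) (fun j _ => ?_)
        have h3 := ((lab (uc4 u) (hc4 h) huc).2 (τ j) (inv4 u h x j) (fnv4 u h x j)
          (hτ j)).2.2.2.2.1 (A j)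
        rw [hgix, hgfx]
        exact h3
      · exact Finset.prod_nonneg fun j _ => ((lab (uc4 u) (hc4 h) huc).2 _ _ _ (hτ j)).1 (A j)
      · have := hτ 0
        positivity
    · have h0 : wtv u h τ x A = 0 := by
        by_contra hne
        apply hc'
        intro j s hj hs
        have hk : kA (uc4 u) (hc4 h) (A j) (τ j) (inv4 u h x j) (fnv4 u h x j) ≠ 0 := by
          intro h0
          apply hne
          unfold wtv
          exact mul_eq_zero_of_right _ (Finset.prod_eq_zero
            (Finset.mem_erase.2 ⟨hj, Finset.mem_univ j⟩) h0)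
        exact ((lab (uc4 u) (hc4 h) huc).2 _ _ _ (hτ j)).2.2.2.2.2 (A j) s hs hk
      rw [h0]
      simp
  · simp [hx]

end Pool.Agent.XQ.K4.H9
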